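import Pool.Agent.TH585.J152C

/-!
# The bump lemma

A concave coercive subsolution which is a strict subsolution at a point of second order
differentiability can be increased.
-/

open MeasureTheory Set Metric Filter Topology
open scoped InnerProductSpace

namespace Pool.Agent.TH585.J152

open Pool.Agent.TH281.PC

variable {d : ℕ}

theorem env_sub {O : OpData d} {δ : ℝ} {P : Set (V d)} (hP : IsOpen P)
    (hb : Bornology.IsBounded P) {v : V d → ℝ} (hv : Cls O δ P v) (hvc : ContinuousOn v P)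
    (happ : ∀ K : Set (V d), K ⊆ P → IsCompact K → ∀ η : ℝ, 0 < η →
      ∃ (G : V d → ℝ) (q : V d → V d) (Q : V d → V d →L[ℝ] V d), Apx O δ K η v G q Q)
    {x₀ p₀ : V d} {r c₁ m' : ℝ} (hr : 0 < r) (hBP : closedBall x₀ r ⊆ P) {S : V d →L[ℝ] V d}
    (hS : ∀ a b, ⟪S a, b⟫_ℝ = ⟪a, S b⟫_ℝ)
    (hE : ∀ y ∈ closedBall x₀ r, 0 < O.A (p₀ + S (y - x₀)) S + O.b (p₀ + S (y - x₀)) -
        δ * quad c₁ p₀ x₀ S y)
    (hm' : 0 < m') (hsph : ∀ y ∈ sphere x₀ r, quad c₁ p₀ x₀ S y + m' ≤ v y) :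
    Sub O δ P (env P (closedBall x₀ r) v (quad c₁ p₀ x₀ S)) := by
  set B := closedBall x₀ r with hBdef
  set φ := quad c₁ p₀ x₀ S with hφdef
  set W := env P B v φ with hW
  have hBc : IsCompact B := isCompact_closedBall x₀ r
  have hx₀B : x₀ ∈ B := mem_closedBall_self hr.le
  have hx₀P : x₀ ∈ P := hBP hx₀B
  have hφc : Continuous φ := continuous_quad _ _ _ _
  -- upper bounds
  obtain ⟨m₁, hm₁0, hm₁⟩ := bounds hvc hv.coer
  obtain ⟨m₂, hm₂⟩ := (hBc.image hφc).bddAbove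
  set m := max m₁ m₂ with hm
  have hm0 : 0 ≤ m := hm₁0.trans (le_max_left _ _)
  have hvm : ∀ x ∈ P, v x ≤ m := fun x hx => (hm₁ x hx).trans (le_max_left _ _)
  have hφm : ∀ y ∈ B, φ y ≤ m := fun y hy => (hm₂ ⟨y, hy, rfl⟩).trans (le_max_right _ _)
  -- lower bounds
  obtain ⟨mB, hmB0, hmB⟩ := lower_bound hvc hBc hBP
  obtain ⟨K₁, hK₁P, hK₁c, hK₁⟩ := half_compact hP hb hv.conc.1 hBc hBP
  obtain ⟨M₁, hM₁0, hM₁'⟩ := lower_bound hvc hK₁c hK₁P
  have hM₁ : ∀ x ∈ P, ∀ y ∈ B, -M₁ ≤ v ((1 / 2 : ℝ) • x + (1 / 2 : ℝ) • y) := by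
    intro x hx y hy
    have h1 := hK₁ (1 / 2) ⟨by norm_num, le_rfl⟩ x hx y hy
    have e : (1 - 1 / 2 : ℝ) = 1 / 2 := by norm_num
    rw [e] at h1
    exact hM₁' _ h1
  refine Sub.of_symm (fun z₀ hz₀ ξ H hH hmaj => ?_)
  suffices hsuff : 0 ≤ O.A ξ H + (O.b ξ - δ * W z₀) by linarith
  refine O.limit ξ H (fun γ hγ => ?_)
  by_contra hcon
  push Not at hcon
  set H₁ := H + (2 * γ) • ContinuousLinearMap.id ℝ (V d) with hH₁
  have hH₁s : ∀ a b, ⟪H₁ a, b⟫_ℝ = ⟪a, H₁ b⟫_ℝ := by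
    intro a b
    simp only [hH₁, add_apply, smul_apply, ContinuousLinearMap.id_apply, inner_add_left,
      inner_add_right, real_inner_smul_left, real_inner_smul_right, hH]
  set T₁ := quad (W z₀) ξ z₀ H₁ with hT₁
  have hT₁c : Continuous T₁ := continuous_quad _ _ _ _
  have hT₁0 : T₁ z₀ = W z₀ := by simp [hT₁, quad]
  have hT₁e : ∀ y, T₁ y = W z₀ + ⟪ξ, y - z₀⟫_ℝ + (1 / 2) * ⟪H (y - z₀), y - z₀⟫_ℝ +
      γ * ‖y - z₀‖ ^ 2 := by
    intro y
    have e5 : ⟪H₁ (y - z₀), y - z₀⟫_ℝ = ⟪H (y - z₀), y - z₀⟫_ℝ + 2 * γ * ‖y - z₀‖ ^ 2 := by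
      rw [hH₁, add_apply, inner_add_left, smul_apply, ContinuousLinearMap.id_apply,
        real_inner_smul_left, real_inner_self_eq_norm_sq]
    simp only [hT₁, quad, e5]
    ring
  -- the strict inequality persists
  have hΞc : Continuous (fun z : V d × ℝ => O.A (ξ + H₁ (z.1 - z₀)) H₁ +
      O.b (ξ + H₁ (z.1 - z₀)) - δ * z.2) := by
    have h1 : Continuous (fun z : V d × ℝ => ξ + H₁ (z.1 - z₀)) := by fun_prop
    have h3 := (O.contA.comp h1).clm_apply (continuous_const (y := H₁))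
    have h4 := O.contb.comp h1
    exact (h3.add h4).sub (continuous_const.mul continuous_snd)
  set κ : ℝ := -(O.A ξ H₁ + (O.b ξ - δ * W z₀)) / 2 with hκ
  have hκ0 : 0 < κ := by rw [hκ]; linarith
  have hev := (hΞc.tendsto (z₀, W z₀)).eventually_lt_const (u := -κ) (by
    have e : O.A (ξ + H₁ (z₀ - z₀)) H₁ + O.b (ξ + H₁ (z₀ - z₀)) - δ * W z₀ =
        O.A ξ H₁ + (O.b ξ - δ * W z₀) := by
      rw [sub_self, map_zero, add_zero]; ring
    show O.A (ξ + H₁ (z₀ - z₀)) H₁ + O.b (ξ + H₁ (z₀ - z₀)) - δ * W z₀ < -κ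
    rw [e, hκ]
    linarith)
  obtain ⟨ε, hε, hΞ⟩ := Metric.eventually_nhds_iff_ball.1 hev
  have hT₁ev : ∀ᶠ z in 𝓝 z₀, |T₁ z - W z₀| < ε / 2 := by
    have := hT₁c.tendsto z₀
    rw [hT₁0] at this
    have h2 := Metric.tendsto_nhds.1 this (ε / 2) (by positivity)
    simpa [Real.dist_eq] using h2
  obtain ⟨ρ', hρ', hρball⟩ := Metric.eventually_nhds_iff_ball.1
    (((hmaj.and hT₁ev).and (hP.mem_nhds hz₀)).and (Metric.ball_mem_nhds z₀ hε))
  set ρ := ρ' / 2 with hρ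
  have hρ0 : 0 < ρ := by positivity
  have hρsub : closedBall z₀ ρ ⊆ ball z₀ ρ' := closedBall_subset_ball (by rw [hρ]; linarith)
  -- the small parameter
  obtain ⟨η, hη0, hη1, hη2, hη3, hη4, hη5⟩ : ∃ η : ℝ, 0 < η ∧ η ≤ 1 ∧ 3 * η < γ * ρ ^ 2 ∧
      2 * η < ε / 2 ∧ η < m' ∧ η ≤ κ := by
    refine ⟨min 1 (min (γ * ρ ^ 2 / 4) (min (ε / 8) (min (m' / 2) κ))), ?_, ?_, ?_, ?_, ?_, ?_⟩
    · refine lt_min one_pos (lt_min (by positivity) (lt_min (by positivity)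
        (lt_min (by positivity) hκ0)))
    · exact min_le_left _ _
    · have h1 : min 1 (min (γ * ρ ^ 2 / 4) (min (ε / 8) (min (m' / 2) κ))) ≤ γ * ρ ^ 2 / 4 :=
        (min_le_right _ _).trans (min_le_left _ _)
      have h2 : 0 < γ * ρ ^ 2 := by positivity
      linarith
    · have h1 : min 1 (min (γ * ρ ^ 2 / 4) (min (ε / 8) (min (m' / 2) κ))) ≤ ε / 8 :=
        (min_le_right _ _).trans ((min_le_right _ _).trans (min_le_left _ _))
      linarith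
    · have h1 : min 1 (min (γ * ρ ^ 2 / 4) (min (ε / 8) (min (m' / 2) κ))) ≤ m' / 2 :=
        (min_le_right _ _).trans ((min_le_right _ _).trans ((min_le_right _ _).trans
          (min_le_left _ _)))
      linarith
    · exact (min_le_right _ _).trans ((min_le_right _ _).trans ((min_le_right _ _).trans
          (min_le_right _ _)))
  -- the large parameter
  set N : ℝ := |W z₀| + 1 with hN
  have hWabs : 0 ≤ |W z₀| := abs_nonneg _
  have hWle : -|W z₀| ≤ W z₀ := neg_abs_le _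
  have hvx₀abs : 0 ≤ |v x₀| := abs_nonneg _
  have hvx₀le : -|v x₀| ≤ v x₀ := neg_abs_le _
  obtain ⟨M, hMa, hMb, hMc, hMd, hMe, hMf⟩ : ∃ M : ℝ, 2 * (N + m) ≤ M ∧ 2 * M₁ + m + 10 ≤ M ∧
      M₁ ≤ M ∧ mB ≤ M ∧ |v x₀| < M ∧ 2 * (m + |W z₀| + ε) + 10 ≤ M := by
    refine ⟨2 * (N + m) + (2 * M₁ + m + 10) + M₁ + mB + |v x₀| + (2 * (m + |W z₀| + ε) + 10),
      ?_, ?_, ?_, ?_, ?_, ?_⟩ <;> linarith
  have hM0 : 0 ≤ M := hmB0.trans hMd
  set KM : Set (V d) := {x | x ∈ P ∧ -M ≤ v x} with hKM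
  have hKMc : IsCompact KM := superlevel_compact hvc hv.coer M
  have hKMP : KM ⊆ P := fun x hx => hx.1
  have hBKM : B ⊆ KM := fun y hy => ⟨hBP hy, by linarith [hmB y hy]⟩
  obtain ⟨G, q, Q, hG⟩ := happ KM hKMP hKMc η hη0
  have hGc : Continuous G := by
    rw [continuous_iff_continuousAt]
    exact fun x => (hG.grad x).hasFDerivAt.continuousAt
  have hGle : ∀ x ∈ KM, G x ≤ v x + η := fun x hx => by
    have := (abs_le.1 (hG.close x hx)).2; linarith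
  have hGge : ∀ x ∈ KM, v x - η ≤ G x := fun x hx => by
    have := (abs_le.1 (hG.close x hx)).1; linarith
  -- the compact set and the function
  set Z : ℝ × V d × V d → V d := fun w => w.1 • w.2.1 + (1 - w.1) • w.2.2 with hZ
  have hZc : Continuous Z := by rw [hZ]; fun_prop
  set Ψ : ℝ × V d × V d → ℝ := fun w => w.1 * G w.2.1 + (1 - w.1) * φ w.2.2 - T₁ (Z w) with hΨ
  have hΨc : Continuous Ψ := by rw [hΨ]; fun_prop
  set C : Set (ℝ × V d × V d) := (Icc (0:ℝ) 1 ×ˢ (KM ×ˢ B)) ∩ Z ⁻¹' closedBall z₀ ρ with hC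
  have hCc : IsCompact C := (isCompact_Icc.prod (hKMc.prod hBc)).inter_right
    (isClosed_closedBall.preimage hZc)
  -- a good element
  obtain ⟨w₀, hw₀C, hw₀⟩ : ∃ w ∈ C, -(2 * η) ≤ Ψ w := by
    obtain ⟨t, ht, hlt⟩ := exists_lt_of_lt_csSup ⟨_, Rep.self_mem hx₀B hz₀⟩
      (show W z₀ - η < sSup (Rep P B v φ z₀) by rw [hW]; unfold env; linarith)
    obtain ⟨θ, hθ, x, hx, y, hy, e, rfl⟩ := ht
    obtain ⟨θ', hθ', x', hx', e', hvx', hle'⟩ := improve hv.conc hBP hm0 hφm hM₁ hMa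
      (by linarith : 2 * M₁ + m ≤ M) hMc hM0 hθ hx hy (by rw [hN]; linarith)
    refine ⟨(θ', x', y), ⟨⟨hθ', ⟨hx', hvx'⟩, hy⟩, ?_⟩, ?_⟩
    · show θ' • x' + (1 - θ') • y ∈ closedBall z₀ ρ
      rw [e', e]
      exact mem_closedBall_self hρ0.le
    · show -(2 * η) ≤ θ' * G x' + (1 - θ') * φ y - T₁ (θ' • x' + (1 - θ') • y)
      rw [e', e, hT₁0]
      have h1 := mul_le_mul_of_nonneg_left (hGge x' ⟨hx', hvx'⟩) hθ'.1
      have h2 : θ' * η ≤ η := by nlinarith [hθ'.2]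
      linarith
  obtain ⟨⟨θ, x, y⟩, hwC, hwmax⟩ := hCc.exists_isMaxOn ⟨w₀, hw₀C⟩ hΨc.continuousOn
  obtain ⟨⟨hθ, hxK, hyB⟩, hzρ⟩ := hwC
  simp only at hθ hxK hyB
  have hmaxle : ∀ w ∈ C, Ψ w ≤ Ψ (θ, x, y) := fun w hw => hwmax hw
  set z := θ • x + (1 - θ) • y with hz
  have hzρ' : z ∈ closedBall z₀ ρ := hzρ
  set Ψs := Ψ (θ, x, y) with hΨs
  have hΨse : Ψs = θ * G x + (1 - θ) * φ y - T₁ z := rfl
  have hΨlow : -(2 * η) ≤ Ψs := hw₀.trans (hmaxle w₀ hw₀C)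
  have hzP : z ∈ P := hv.conc.1 hxK.1 (hBP hyB) hθ.1 (sub_nonneg.2 hθ.2) (by ring)
  have hθη : θ * η ≤ η := by nlinarith [hθ.2]
  have hrepz : θ * v x + (1 - θ) * φ y ≤ W z :=
    le_csSup (Rep.bdd hvm hφm z) ⟨θ, hθ, x, hxK.1, y, hyB, rfl, rfl⟩
  have hzall := hρball z (hρsub hzρ')
  have hT₁z : |T₁ z - W z₀| < ε / 2 := hzall.1.1.2
  have hT₁z1 := (abs_lt.1 hT₁z).1
  have hT₁z2 := (abs_lt.1 hT₁z).2
  have hzε : z ∈ ball z₀ ε := hzall.2
  have hΨup : Ψs ≤ η - γ * ‖z - z₀‖ ^ 2 := by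
    have h1 := mul_le_mul_of_nonneg_left (hGle x hxK) hθ.1
    have h2 : W z ≤ W z₀ + ⟪ξ, z - z₀⟫_ℝ + 1 / 2 * ⟪H (z - z₀), z - z₀⟫_ℝ := hzall.1.1.1
    have h3 := hT₁e z
    rw [hΨse]
    linarith
  have hΨη : Ψs ≤ η := by
    have : 0 ≤ γ * ‖z - z₀‖ ^ 2 := by positivity
    linarith
  have hzint : ‖z - z₀‖ < ρ := by
    by_contra hge
    push Not at hge
    have h1 : ρ ^ 2 ≤ ‖z - z₀‖ ^ 2 := by gcongr
    have h2 := mul_le_mul_of_nonneg_left h1 hγ.le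
    linarith
  -- interiority of x
  have hxint : θ ≠ 0 → -M < v x := by
    intro hθ0
    have hθpos : 0 < θ := lt_of_le_of_ne hθ.1 (Ne.symm hθ0)
    by_contra hle
    push Not at hle
    have hGx : G x ≤ -M + η := (hGle x hxK).trans (by linarith)
    have hφy := hφm y hyB
    by_cases hθ2 : θ ≤ 1 / 2
    · have hx'P : (1 / 2 : ℝ) • x + (1 / 2 : ℝ) • y ∈ P :=
        hv.conc.1 hxK.1 (hBP hyB) (by norm_num) (by norm_num) (by norm_num)
      have hx'v := hM₁ x hxK.1 y hyB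
      have hx'K : (1 / 2 : ℝ) • x + (1 / 2 : ℝ) • y ∈ KM := ⟨hx'P, by linarith⟩
      have ez : (2 * θ) • ((1 / 2 : ℝ) • x + (1 / 2 : ℝ) • y) + (1 - 2 * θ) • y = z := by
        rw [hz]; module
      have h1 := hmaxle (2 * θ, (1 / 2 : ℝ) • x + (1 / 2 : ℝ) • y, y)
        ⟨⟨⟨by simp only; linarith, by simp only; linarith⟩, hx'K, hyB⟩, by
          show (2 * θ) • ((1 / 2 : ℝ) • x + (1 / 2 : ℝ) • y) + (1 - 2 * θ) • y ∈ closedBall z₀ ρ
          rw [ez]; exact hzρ'⟩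
      have h2 : (2 * θ) * G ((1 / 2 : ℝ) • x + (1 / 2 : ℝ) • y) + (1 - 2 * θ) * φ y - T₁ z ≤
          θ * G x + (1 - θ) * φ y - T₁ z := by
        have h3 : Ψ (2 * θ, (1 / 2 : ℝ) • x + (1 / 2 : ℝ) • y, y) =
            (2 * θ) * G ((1 / 2 : ℝ) • x + (1 / 2 : ℝ) • y) + (1 - 2 * θ) * φ y - T₁ z := by
          show (2 * θ) * G ((1 / 2 : ℝ) • x + (1 / 2 : ℝ) • y) + (1 - 2 * θ) * φ y -
            T₁ ((2 * θ) • ((1 / 2 : ℝ) • x + (1 / 2 : ℝ) • y) + (1 - 2 * θ) • y) = _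
          rw [ez]
        rw [← h3]; exact h1
      have h4 : θ * (2 * G ((1 / 2 : ℝ) • x + (1 / 2 : ℝ) • y) - G x - φ y) ≤ 0 := by linarith
      have h5 := hGge _ hx'K
      have h6 : 0 < 2 * G ((1 / 2 : ℝ) • x + (1 / 2 : ℝ) • y) - G x - φ y := by linarith
      have h7 := mul_pos hθpos h6
      linarith
    · push Not at hθ2
      have h1 := mul_le_mul_of_nonneg_left hGx hθ.1
      have h2 := mul_le_mul_of_nonneg_left hφy (sub_nonneg.2 hθ.2)
      have h3 : (1 - θ) * m ≤ m := by nlinarith [hθ.1]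
      have h4 : θ * (-M + η) ≤ 1 / 2 * (-M + η) := by
        have : -M + η ≤ 0 := by linarith
        nlinarith
      linarith
  -- interiority of y
  have hyint : 1 - θ ≠ 0 → dist y x₀ < r := by
    intro hθ1
    have hθlt : 0 < 1 - θ := lt_of_le_of_ne (sub_nonneg.2 hθ.2) (Ne.symm hθ1)
    by_contra hge
    push Not at hge
    have hys : y ∈ sphere x₀ r := le_antisymm (mem_closedBall.1 hyB) hge
    have h1 := hsph y hys
    have h2 := hGge y (hBKM hyB)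
    have h3 : φ y < G y := by linarith
    have h4 := hG.conc.2 (mem_univ x) (mem_univ y) hθ.1 hθlt.le (by ring)
    simp only [smul_eq_mul] at h4
    have hvz := hv.conc.2 hxK.1 (hBP hyB) hθ.1 hθlt.le (by ring)
    simp only [smul_eq_mul] at hvz
    have hzK : z ∈ KM := by
      refine ⟨hzP, ?_⟩
      have h5 := mul_le_mul_of_nonneg_left hxK.2 hθ.1
      have h6 := mul_le_mul_of_nonneg_left (hBKM hyB).2 hθlt.le
      have h7 : v z = v (θ • x + (1 - θ) • y) := rfl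
      linarith
    have ez : (1:ℝ) • z + (1 - 1 : ℝ) • y = z := by module
    have h5 := hmaxle (1, z, y) ⟨⟨right_mem_Icc.2 zero_le_one, hzK, hyB⟩, by
      show (1:ℝ) • z + (1 - 1 : ℝ) • y ∈ closedBall z₀ ρ
      rw [ez]; exact hzρ'⟩
    have h6 : G z - T₁ z ≤ θ * G x + (1 - θ) * φ y - T₁ z := by
      have h7 : Ψ (1, z, y) = G z - T₁ z := by
        show 1 * G z + (1 - 1) * φ y - T₁ ((1:ℝ) • z + (1 - 1 : ℝ) • y) = _
        rw [ez]; ring
      rw [← h7]; exact h5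
    have h8 : (1 - θ) * φ y < (1 - θ) * G y := mul_lt_mul_of_pos_left h3 hθlt
    have h9 : G z = G (θ • x + (1 - θ) • y) := rfl
    linarith
  -- replace the irrelevant point
  obtain ⟨x', y', hx'P, hx'v, hy'r, hz', hθx', hθy'⟩ : ∃ x' y' : V d, x' ∈ P ∧ -M < v x' ∧
      dist y' x₀ < r ∧ θ • x' + (1 - θ) • y' = z ∧ θ * G x' = θ * G x ∧
      (1 - θ) * φ y' = (1 - θ) * φ y := by
    by_cases h0 : θ = 0
    · refine ⟨x₀, y, hx₀P, by linarith, hyint (by rw [h0]; norm_num), ?_, by rw [h0]; ring, rfl⟩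
      rw [hz, h0]; module
    · by_cases h1 : 1 - θ = 0
      · refine ⟨x, x₀, hxK.1, hxint h0, by rw [dist_self]; exact hr, ?_, rfl, by rw [h1]; ring⟩
        rw [hz, h1, zero_smul, zero_smul]
      · exact ⟨x, y, hxK.1, hxint h0, hyint h1, rfl, rfl, rfl⟩
  have hx'K : x' ∈ KM := ⟨hx'P, hx'v.le⟩
  have hy'B : y' ∈ B := mem_closedBall.2 hy'r.le
  have hopt := opt_cond (G := G) (q := q) (Q := Q x') (x := x') (y := y') (z₀ := z₀) (x₀ := x₀)
    (ξ := ξ) (p₀ := p₀) (S := S) (H₁ := H₁) (c₁ := c₁) (c₂ := W z₀) (θ := θ)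
    hG.grad (hG.hess x') hS hH₁s hθ (by
      intro e₁ e₂
      have hc1 : Tendsto (fun t : ℝ => x' + t • e₁) (𝓝 0) (𝓝 x') := by
        have : Continuous (fun t : ℝ => x' + t • e₁) := by fun_prop
        simpa using this.tendsto 0
      have hc2 : Tendsto (fun t : ℝ => y' + t • e₂) (𝓝 0) (𝓝 y') := by
        have : Continuous (fun t : ℝ => y' + t • e₂) := by fun_prop
        simpa using this.tendsto 0
      have hc3 : Tendsto (fun t : ℝ => θ • (x' + t • e₁) + (1 - θ) • (y' + t • e₂)) (𝓝 0)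
          (𝓝 z) := by
        have : Continuous (fun t : ℝ => θ • (x' + t • e₁) + (1 - θ) • (y' + t • e₂)) := by
          fun_prop
        have h1 := this.tendsto 0
        simp only [zero_smul, add_zero, hz'] at h1
        exact h1
      have hv1 : ContinuousAt v x' := hvc.continuousAt (hP.mem_nhds hx'P)
      have ev1 : ∀ᶠ u in 𝓝 x', u ∈ KM := by
        filter_upwards [hP.mem_nhds hx'P, hv1.eventually_const_lt hx'v] with u hu1 hu2
        exact ⟨hu1, hu2.le⟩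
      have ev2 : ∀ᶠ u in 𝓝 y', u ∈ B := by
        filter_upwards [isOpen_ball.mem_nhds (mem_ball.2 hy'r)] with u hu
        exact ball_subset_closedBall hu
      have ev3 : ∀ᶠ u in 𝓝 z, u ∈ closedBall z₀ ρ := by
        filter_upwards [isOpen_ball.mem_nhds (mem_ball.2 (by rw [dist_eq_norm]; exact hzint))]
          with u hu
        exact ball_subset_closedBall hu
      filter_upwards [hc1.eventually ev1, hc2.eventually ev2, hc3.eventually ev3] with t ht1 ht2 ht3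
      have h1 := hmaxle (θ, x' + t • e₁, y' + t • e₂) ⟨⟨hθ, ht1, ht2⟩, ht3⟩
      have h2 : Ψ (θ, x' + t • e₁, y' + t • e₂) = θ * G (x' + t • e₁) +
          (1 - θ) * φ (y' + t • e₂) - T₁ (θ • (x' + t • e₁) + (1 - θ) • (y' + t • e₂)) := rfl
      rw [h2] at h1
      have h3 : Ψs = θ * G x' + (1 - θ) * φ y' - T₁ (θ • x' + (1 - θ) • y') := by
        rw [hz', hθx', hθy']
      rw [← h3]
      exact h1)
  rw [hz'] at hopt
  obtain ⟨hopt1, hopt2, hopt3⟩ := hopt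
  set ξs := ξ + H₁ (z - z₀) with hξs
  have hmono := O.mono ξs hopt3
  rw [map_add, map_smul, map_smul, smul_eq_mul, smul_eq_mul] at hmono
  have hA1 : θ * (-η - O.b ξs + δ * G x') ≤ θ * O.A ξs (Q x') := by
    rcases hopt1 with h0 | h0
    · rw [h0, zero_mul, zero_mul]
    · have h1 := hG.sub x' hx'K
      rw [h0] at h1
      exact mul_le_mul_of_nonneg_left (by linarith) hθ.1
  have hA2 : (1 - θ) * (-O.b ξs + δ * φ y') ≤ (1 - θ) * O.A ξs S := by
    rcases hopt2 with h0 | h0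
    · rw [h0, zero_mul, zero_mul]
    · have h1 := hE y' hy'B
      rw [h0] at h1
      exact mul_le_mul_of_nonneg_left (by linarith) (sub_nonneg.2 hθ.2)
  -- the contradiction
  have hcontra := hΞ (z, T₁ z + Ψs) (by
    rw [mem_ball, Prod.dist_eq, max_lt_iff]
    refine ⟨hzε, ?_⟩
    show dist (T₁ z + Ψs) (W z₀) < ε
    rw [Real.dist_eq, abs_lt]
    constructor <;> linarith)
  have hcontra' : O.A ξs H₁ + O.b ξs - δ * (T₁ z + Ψs) < -κ := hcontra
  have hsum : θ * G x' + (1 - θ) * φ y' = T₁ z + Ψs := by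
    rw [hθx', hθy', hΨse]; ring
  have h1 : θ * (-η - O.b ξs + δ * G x') + (1 - θ) * (-O.b ξs + δ * φ y') =
      -(θ * η) - O.b ξs + δ * (θ * G x' + (1 - θ) * φ y') := by ring
  rw [hsum] at h1
  linarith

/-- a concave coercive subsolution that is a strict subsolution at a point can be increased -/
theorem bump {O : OpData d} {δ : ℝ} (_hδ : 0 ≤ δ) {P : Set (V d)} (hP : IsOpen P)
    (hb : Bornology.IsBounded P) {v : V d → ℝ} (hv : Cls O δ P v)
    (happ : ∀ K : Set (V d), K ⊆ P → IsCompact K → ∀ η : ℝ, 0 < η →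
      ∃ (G : V d → ℝ) (q : V d → V d) (Q : V d → V d →L[ℝ] V d), Apx O δ K η v G q Q)
    {g : V d → V d} (hg : ∀ x ∈ P, HasGradientAt v (g x) x) {x₀ : V d} (hx₀ : x₀ ∈ P)
    {D : V d →L[ℝ] V d} (hD : HasFDerivAt g D x₀)
    (hpos : 0 < O.A (g x₀) D + O.b (g x₀) - δ * v x₀) :
    ∃ W, Cls O δ P W ∧ (∀ x ∈ P, v x ≤ W x) ∧ v x₀ < W x₀ := by
  obtain ⟨r, m', c, S, hr, hm', hc, hBP, hS, hneg, hE, hsph⟩ :=
    exists_bump hP hv.conc hg hx₀ hD hpos
  have hvc : ContinuousOn v P := fun x hx => (hg x hx).hasFDerivAt.continuousAt.continuousWithinAt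
  set B := closedBall x₀ r with hBdef
  set φ := quad (v x₀ + c) (g x₀) x₀ S with hφdef
  have hBc : IsCompact B := isCompact_closedBall x₀ r
  have hx₀B : x₀ ∈ B := mem_closedBall_self hr.le
  have hφc : Continuous φ := continuous_quad _ _ _ _
  obtain ⟨m₁, hm₁0, hm₁⟩ := bounds hvc hv.coer
  obtain ⟨m₂, hm₂⟩ := (hBc.image hφc).bddAbove
  have hm0 : 0 ≤ max m₁ m₂ := hm₁0.trans (le_max_left _ _)
  have hvm : ∀ x ∈ P, v x ≤ max m₁ m₂ := fun x hx => (hm₁ x hx).trans (le_max_left _ _)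
  have hφm : ∀ y ∈ B, φ y ≤ max m₁ m₂ := fun y hy =>
    (hm₂ ⟨y, hy, rfl⟩).trans (le_max_right _ _)
  have hφconc : ConcaveOn ℝ B φ :=
    (quad_concave _ _ _ hS hneg).subset (subset_univ _) (convex_closedBall x₀ r)
  refine ⟨env P B v φ, ⟨env_concave hv.conc hφconc hx₀B hvm hφm,
    env_sub hP hb hv hvc happ hr hBP hS hE hm' hsph,
    env_coer hP hb hv.conc hvc hv.coer hBc hBP hx₀B hm0 hφm⟩,
    fun x hx => env_ge hvm hφm hx₀B hx, ?_⟩
  have h1 := env_ge' (P := P) hvm hφm hx₀ hx₀B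
  have h2 : φ x₀ = v x₀ + c := by simp [hφdef, quad]
  linarith

end Pool.Agent.TH585.J152
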