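import Pool.Agent.TH281.PC.Core

/-!
# The bump lemma: a concave coercive subsolution which is a strict subsolution at a point can be
increased.
-/

open MeasureTheory Set Metric Filter Topology
open scoped InnerProductSpace

namespace Pool.Agent.TH585.J152

open Pool.Agent.TH281.PC

variable {d : ℕ}

/-- if `t a + t² b ≤ 0` for all small `t` then `a = 0` and `b ≤ 0` -/
theorem quad_le {a b : ℝ} (h : ∀ᶠ t : ℝ in 𝓝 0, t * a + t ^ 2 * b ≤ 0) : a = 0 ∧ b ≤ 0 := by
  obtain ⟨ε, hε, hb⟩ := Metric.eventually_nhds_iff_ball.1 h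
  have key : ∀ t : ℝ, |t| < ε → t * a + t ^ 2 * b ≤ 0 := by
    intro t ht
    apply hb
    rwa [mem_ball, dist_zero_right, Real.norm_eq_abs]
  have ha : a = 0 := by
    by_contra hne
    have hpos : 0 < |a| := abs_pos.2 hne
    -- choose s small
    obtain ⟨s, hs0, hs1, hs2⟩ : ∃ s : ℝ, 0 < s ∧ s < ε ∧ s * |b| < |a| := by
      refine ⟨min (ε / 2) (|a| / (2 * (|b| + 1))), ?_, ?_, ?_⟩
      · apply lt_min (by linarith)
        positivity
      · exact lt_of_le_of_lt (min_le_left _ _) (by linarith)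
      · have h1 : min (ε / 2) (|a| / (2 * (|b| + 1))) ≤ |a| / (2 * (|b| + 1)) := min_le_right _ _
        have h2 : 0 ≤ |b| := abs_nonneg b
        calc min (ε / 2) (|a| / (2 * (|b| + 1))) * |b| ≤ |a| / (2 * (|b| + 1)) * |b| := by gcongr
          _ < |a| := by
            rw [div_mul_eq_mul_div, div_lt_iff₀ (by positivity)]
            nlinarith
    have hb1 : -|b| ≤ b := neg_abs_le b
    rcases lt_or_gt_of_ne hne with hlt | hgt
    · have h3 := key (-s) (by rw [abs_neg, abs_of_pos hs0]; exact hs1)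
      have h4 : |a| = -a := abs_of_neg hlt
      nlinarith [mul_pos hs0 hs0, mul_le_mul_of_nonneg_left hb1 (mul_pos hs0 hs0).le]
    · have h3 := key s (by rw [abs_of_pos hs0]; exact hs1)
      have h4 : |a| = a := abs_of_pos hgt
      nlinarith [mul_pos hs0 hs0, mul_le_mul_of_nonneg_left hb1 (mul_pos hs0 hs0).le]
  refine ⟨ha, ?_⟩
  have h5 := key (ε / 2) (by rw [abs_of_pos (by linarith)]; linarith)
  rw [ha, mul_zero, zero_add] at h5
  by_contra hcon
  push Not at hcon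
  have : 0 < (ε / 2) ^ 2 * b := by positivity
  linarith

/-- the quadratic function -/
noncomputable def quad (c : ℝ) (p x₀ : V d) (S : V d →L[ℝ] V d) (y : V d) : ℝ :=
  c + ⟪p, y - x₀⟫_ℝ + (1 / 2) * ⟪S (y - x₀), y - x₀⟫_ℝ

theorem quad_add (c : ℝ) (p x₀ : V d) {S : V d →L[ℝ] V d} (hS : ∀ a b, ⟪S a, b⟫_ℝ = ⟪a, S b⟫_ℝ)
    (y h : V d) : quad c p x₀ S (y + h) =
      quad c p x₀ S y + ⟪p + S (y - x₀), h⟫_ℝ + (1 / 2) * ⟪S h, h⟫_ℝ := by
  have e : y + h - x₀ = (y - x₀) + h := by abel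
  simp only [quad, e, map_add, inner_add_left, inner_add_right]
  rw [hS h (y - x₀), real_inner_comm (S (y - x₀)) h]
  ring

theorem continuous_quad (c : ℝ) (p x₀ : V d) (S : V d →L[ℝ] V d) :
    Continuous (quad c p x₀ S) := by
  unfold quad
  fun_prop

/-- convex combination in a convex set with a concave function -/
theorem combine {C : Set (V d)} {f : V d → ℝ} (hf : ConcaveOn ℝ C f) {x₁ x₂ : V d}
    (h₁ : x₁ ∈ C) (h₂ : x₂ ∈ C) {α β : ℝ} (hα : 0 ≤ α) (hβ : 0 ≤ β) :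
    ∃ x ∈ C, α • x₁ + β • x₂ = (α + β) • x ∧ α * f x₁ + β * f x₂ ≤ (α + β) * f x := by
  rcases eq_or_lt_of_le (add_nonneg hα hβ) with h0 | hpos
  · have ha : α = 0 := by linarith
    have hb : β = 0 := by linarith
    refine ⟨x₁, h₁, ?_, ?_⟩
    · simp [ha, hb]
    · simp [ha, hb]
  · have hne : α + β ≠ 0 := hpos.ne'
    have e1 : α / (α + β) + β / (α + β) = 1 := by field_simp
    refine ⟨(α / (α + β)) • x₁ + (β / (α + β)) • x₂, hf.1 h₁ h₂ (by positivity) (by positivity) e1,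
      ?_, ?_⟩
    · rw [smul_add, smul_smul, smul_smul, mul_div_cancel₀ _ hne, mul_div_cancel₀ _ hne]
    · have h3 := hf.2 h₁ h₂ (by positivity : 0 ≤ α / (α + β)) (by positivity) e1
      simp only [smul_eq_mul] at h3
      calc α * f x₁ + β * f x₂ = (α + β) * (α / (α + β) * f x₁ + β / (α + β) * f x₂) := by
            field_simp
        _ ≤ _ := by gcongr


/-- the symmetric part -/
theorem exists_symm (O : OpData d) (D : V d →L[ℝ] V d) : ∃ S : V d →L[ℝ] V d,
    (∀ a b, ⟪S a, b⟫_ℝ = ⟪a, S b⟫_ℝ) ∧ (∀ x, ⟪S x, x⟫_ℝ = ⟪D x, x⟫_ℝ) ∧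
      ∀ ξ, O.A ξ S = O.A ξ D := by
  set T : V d →L[ℝ] V d := (1 / 2 : ℝ) • (D + ContinuousLinearMap.adjoint D) with hT
  have hq : ∀ a, ⟪T a, a⟫_ℝ = ⟪D a, a⟫_ℝ := by
    intro a
    simp only [hT, smul_apply, add_apply, inner_smul_left, inner_add_left,
      ContinuousLinearMap.adjoint_inner_left, conj_trivial]
    rw [real_inner_comm a (D a)]
    ring
  have hsym : ∀ a b, ⟪T a, b⟫_ℝ = ⟪a, T b⟫_ℝ := by
    intro a b
    simp only [hT, smul_apply, add_apply, inner_smul_left, inner_add_left, inner_smul_right,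
      inner_add_right, ContinuousLinearMap.adjoint_inner_left,
      ContinuousLinearMap.adjoint_inner_right, conj_trivial]
    ring
  exact ⟨T, hsym, hq, fun ξ => le_antisymm (O.mono ξ fun a => (hq a).le)
    (O.mono ξ fun a => (hq a).ge)⟩

/-- the second derivative of a concave function is nonpositive -/
theorem hess_nonpos {P : Set (V d)} (hP : IsOpen P) {v : V d → ℝ} (hv : ConcaveOn ℝ P v)
    {g : V d → V d} (hg : ∀ x ∈ P, HasGradientAt v (g x) x) {x₀ : V d} (hx₀ : x₀ ∈ P)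
    {D : V d →L[ℝ] V d} (hD : HasFDerivAt g D x₀) (e : V d) : ⟪D e, e⟫_ℝ ≤ 0 := by
  have key : ∀ γ : ℝ, 0 < γ → ⟪D e, e⟫_ℝ ≤ 2 * γ * ‖e‖ ^ 2 := by
    intro γ hγ
    have h1 := taylor_two hP hg hx₀ hD hγ
    have hc : Tendsto (fun t : ℝ => x₀ + t • e) (𝓝 0) (𝓝 x₀) := by
      have : Continuous (fun t : ℝ => x₀ + t • e) := by fun_prop
      simpa using this.tendsto 0
    have hc' : Tendsto (fun t : ℝ => x₀ + (-t) • e) (𝓝 0) (𝓝 x₀) := by
      have : Continuous (fun t : ℝ => x₀ + (-t) • e) := by fun_prop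
      simpa using this.tendsto 0
    have h2 : ∀ᶠ t : ℝ in 𝓝 0, t * 0 + t ^ 2 * (⟪D e, e⟫_ℝ - 2 * γ * ‖e‖ ^ 2) ≤ 0 := by
      filter_upwards [hc.eventually h1, hc'.eventually h1, hc.eventually (hP.mem_nhds hx₀),
        hc'.eventually (hP.mem_nhds hx₀)] with t ht ht' htP htP'
      rw [add_sub_cancel_left] at ht ht'
      have h3 := (abs_le.1 ht).1
      have h4 := (abs_le.1 ht').1
      have h5 := hv.2 htP htP' (by norm_num : (0:ℝ) ≤ 1 / 2) (by norm_num : (0:ℝ) ≤ 1 / 2)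
        (by norm_num)
      have e1 : (1 / 2 : ℝ) • (x₀ + t • e) + (1 / 2 : ℝ) • (x₀ + (-t) • e) = x₀ := by module
      rw [e1] at h5
      simp only [smul_eq_mul] at h5
      simp only [map_smul, inner_smul_left, inner_smul_right, conj_trivial, norm_smul,
        Real.norm_eq_abs, mul_pow, sq_abs, map_neg, neg_smul, inner_neg_left,
        inner_neg_right, norm_neg] at h3 h4 h5
      nlinarith
    have := (quad_le h2).2
    linarith
  by_contra hcon
  push Not at hcon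
  rcases eq_or_lt_of_le (sq_nonneg ‖e‖) with h0 | hpos
  · have := key 1 one_pos
    rw [← h0] at this
    linarith
  · have := key (⟪D e, e⟫_ℝ / (4 * ‖e‖ ^ 2)) (by positivity)
    have hne : ‖e‖ ≠ 0 := fun h0 => by rw [h0] at hpos; norm_num at hpos
    have e2 : 2 * (⟪D e, e⟫_ℝ / (4 * ‖e‖ ^ 2)) * ‖e‖ ^ 2 = ⟪D e, e⟫_ℝ / 2 := by
      field_simp
      ring
    rw [e2] at this
    linarith

/-- a quadratic function with nonpositive second derivative is concave -/
theorem quad_concave (c : ℝ) (p x₀ : V d) {S : V d →L[ℝ] V d}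
    (hS : ∀ a b, ⟪S a, b⟫_ℝ = ⟪a, S b⟫_ℝ) (hn : ∀ e, ⟪S e, e⟫_ℝ ≤ 0) :
    ConcaveOn ℝ univ (quad c p x₀ S) := by
  refine ⟨convex_univ, fun x _ y _ a b ha hb hab => ?_⟩
  simp only [smul_eq_mul]
  set z := a • x + b • y with hz
  have e1 : x = z + b • (x - y) := by
    rw [hz]
    have : a = 1 - b := by linarith
    rw [this]; module
  have e2 : y = z + (-a) • (x - y) := by
    rw [hz]
    have : b = 1 - a := by linarith
    rw [this]; module
  have h1 := quad_add c p x₀ hS z (b • (x - y))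
  have h2 := quad_add c p x₀ hS z ((-a) • (x - y))
  rw [← e1] at h1
  rw [← e2] at h2
  rw [h1, h2]
  simp only [inner_smul_right, map_smul, inner_smul_left, conj_trivial]
  have h3 := hn (x - y)
  have h4 : 0 ≤ a * b := mul_nonneg ha hb
  have h5 : a * (b * (b * ⟪S (x - y), x - y⟫_ℝ)) + b * (-a * (-a * ⟪S (x - y), x - y⟫_ℝ)) ≤ 0 := by
    have : a * (b * (b * ⟪S (x - y), x - y⟫_ℝ)) + b * (-a * (-a * ⟪S (x - y), x - y⟫_ℝ)) =
        (a * b) * (a + b) * ⟪S (x - y), x - y⟫_ℝ := by ring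
    rw [this, hab, mul_one]
    exact mul_nonpos_of_nonneg_of_nonpos h4 h3
  have h6 : a * (quad c p x₀ S z + b * ⟪p + S (z - x₀), x - y⟫_ℝ +
        1 / 2 * (b * (b * ⟪S (x - y), x - y⟫_ℝ))) +
      b * (quad c p x₀ S z + -a * ⟪p + S (z - x₀), x - y⟫_ℝ +
        1 / 2 * (-a * (-a * ⟪S (x - y), x - y⟫_ℝ))) = (a + b) * quad c p x₀ S z +
      1 / 2 * (a * (b * (b * ⟪S (x - y), x - y⟫_ℝ)) + b * (-a * (-a * ⟪S (x - y), x - y⟫_ℝ))) := by
    ring
  rw [h6, hab, one_mul]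
  linarith

/-- the bump -/
theorem exists_bump {O : OpData d} {δ : ℝ} {P : Set (V d)} (hP : IsOpen P)
    {v : V d → ℝ} (hv : ConcaveOn ℝ P v)
    {g : V d → V d} (hg : ∀ x ∈ P, HasGradientAt v (g x) x) {x₀ : V d} (hx₀ : x₀ ∈ P)
    {D : V d →L[ℝ] V d} (hD : HasFDerivAt g D x₀)
    (hpos : 0 < O.A (g x₀) D + O.b (g x₀) - δ * v x₀) :
    ∃ (r m c : ℝ) (S : V d →L[ℝ] V d), 0 < r ∧ 0 < m ∧ 0 < c ∧ closedBall x₀ r ⊆ P ∧
      (∀ a b, ⟪S a, b⟫_ℝ = ⟪a, S b⟫_ℝ) ∧ (∀ e, ⟪S e, e⟫_ℝ ≤ 0) ∧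
      (∀ y ∈ closedBall x₀ r, 0 < O.A (g x₀ + S (y - x₀)) S + O.b (g x₀ + S (y - x₀)) -
        δ * quad (v x₀ + c) (g x₀) x₀ S y) ∧
      (∀ y ∈ sphere x₀ r, quad (v x₀ + c) (g x₀) x₀ S y + m ≤ v y) := by
  obtain ⟨S, hS, hSq, hSA⟩ := exists_symm O D
  have hn : ∀ e, ⟪S e, e⟫_ℝ ≤ 0 := fun e => by
    rw [hSq]; exact hess_nonpos hP hv hg hx₀ hD e
  rw [← hSA] at hpos
  -- choose μ
  have hcont : Continuous (fun z : ℝ × V d × ℝ =>
      O.A (g x₀ + (S - z.1 • ContinuousLinearMap.id ℝ (V d)) (z.2.1 - x₀))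
        (S - z.1 • ContinuousLinearMap.id ℝ (V d)) +
      O.b (g x₀ + (S - z.1 • ContinuousLinearMap.id ℝ (V d)) (z.2.1 - x₀)) -
      δ * quad (v x₀ + z.2.2) (g x₀) x₀ (S - z.1 • ContinuousLinearMap.id ℝ (V d)) z.2.1) := by
    have h1 : Continuous (fun z : ℝ × V d × ℝ =>
        g x₀ + (S - z.1 • ContinuousLinearMap.id ℝ (V d)) (z.2.1 - x₀)) := by fun_prop
    have h2 : Continuous (fun z : ℝ × V d × ℝ => S - z.1 • ContinuousLinearMap.id ℝ (V d)) := by
      fun_prop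
    have h3 := (O.contA.comp h1).clm_apply h2
    have h4 := O.contb.comp h1
    have h5 : Continuous (fun z : ℝ × V d × ℝ =>
        quad (v x₀ + z.2.2) (g x₀) x₀ (S - z.1 • ContinuousLinearMap.id ℝ (V d)) z.2.1) := by
      unfold quad
      fun_prop
    exact (h3.add h4).sub (continuous_const.mul h5)
  have hev := (hcont.tendsto (0, x₀, 0)).eventually_const_lt (u := 0) (by
    simpa [quad] using hpos)
  obtain ⟨ε, hε, hball⟩ := Metric.eventually_nhds_iff_ball.1 hev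
  set μ : ℝ := ε / 2 with hμ
  have hμ0 : 0 < μ := by positivity
  have ht := taylor_two hP hg hx₀ hD (γ := μ / 8) (by positivity)
  obtain ⟨ε₂, hε₂, hball₂⟩ := Metric.eventually_nhds_iff_ball.1 (ht.and (hP.mem_nhds hx₀))
  set r : ℝ := min (ε / 2) (ε₂ / 2) with hr
  have hr0 : 0 < r := lt_min (by positivity) (by positivity)
  set c : ℝ := min (ε / 2) (μ * r ^ 2 / 8) with hc
  have hc0 : 0 < c := lt_min (by positivity) (by positivity)
  have hsub : closedBall x₀ r ⊆ ball x₀ ε₂ :=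
    closedBall_subset_ball (lt_of_le_of_lt (min_le_right _ _) (by linarith))
  refine ⟨r, μ * r ^ 2 / 8, c, S - μ • ContinuousLinearMap.id ℝ (V d), hr0, by positivity, hc0,
    fun y hy => (hball₂ y (hsub hy)).2, ?_, ?_, ?_, ?_⟩
  · intro a b
    simp only [sub_apply, smul_apply, ContinuousLinearMap.id_apply, inner_sub_left, inner_sub_right,
      inner_smul_left, inner_smul_right, conj_trivial, hS]
  · intro e
    simp only [sub_apply, smul_apply, ContinuousLinearMap.id_apply, inner_sub_left,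
      inner_smul_left, conj_trivial, real_inner_self_eq_norm_sq]
    have := hn e
    have h2 : 0 ≤ μ * ‖e‖ ^ 2 := by positivity
    linarith
  · intro y hy
    have := hball (μ, y, c) (by
      rw [mem_ball, Prod.dist_eq, Prod.dist_eq, max_lt_iff, max_lt_iff]
      refine ⟨?_, ?_, ?_⟩
      · simp only [dist_zero_right, Real.norm_eq_abs, abs_of_pos hμ0]; linarith
      · exact lt_of_le_of_lt (mem_closedBall.1 hy) (lt_of_le_of_lt (min_le_left _ _) (by linarith))
      · simp only [dist_zero_right, Real.norm_eq_abs, abs_of_pos hc0]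
        exact lt_of_le_of_lt (min_le_left _ _) (by linarith))
    exact this
  · intro y hy
    have hy' : y ∈ closedBall x₀ r := sphere_subset_closedBall hy
    have h1 := (abs_le.1 (hball₂ y (hsub hy')).1).1
    have h2 : ‖y - x₀‖ = r := by rw [← dist_eq_norm]; exact hy
    rw [h2] at h1
    have e5 : ⟪(S - μ • ContinuousLinearMap.id ℝ (V d)) (y - x₀), y - x₀⟫_ℝ =
        ⟪D (y - x₀), y - x₀⟫_ℝ - μ * r ^ 2 := by
      rw [sub_apply, inner_sub_left, smul_apply, ContinuousLinearMap.id_apply,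
        real_inner_smul_left, real_inner_self_eq_norm_sq, h2, hSq]
    simp only [quad, e5]
    have h3 : c ≤ μ * r ^ 2 / 8 := min_le_right _ _
    nlinarith

end Pool.Agent.TH585.J152
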