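import Pool.Agent.TH585.J152A

/-!
# The envelope of a concave function and a bump
-/

open MeasureTheory Set Metric Filter Topology
open scoped InnerProductSpace

namespace Pool.Agent.TH585.J152

open Pool.Agent.TH281.PC

variable {d : ℕ}

/-- values of the representations of `z` -/
def Rep (P B : Set (V d)) (v φ : V d → ℝ) (z : V d) : Set ℝ :=
  {t | ∃ θ ∈ Icc (0:ℝ) 1, ∃ x ∈ P, ∃ y ∈ B, θ • x + (1 - θ) • y = z ∧
    t = θ * v x + (1 - θ) * φ y}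

/-- the envelope -/
noncomputable def env (P B : Set (V d)) (v φ : V d → ℝ) (z : V d) : ℝ := sSup (Rep P B v φ z)

section
variable {P B : Set (V d)} {v φ : V d → ℝ} {m : ℝ}

theorem Rep.le (hvm : ∀ x ∈ P, v x ≤ m) (hφm : ∀ y ∈ B, φ y ≤ m) {z : V d} {t : ℝ}
    (ht : t ∈ Rep P B v φ z) : t ≤ m := by
  obtain ⟨θ, hθ, x, hx, y, hy, -, rfl⟩ := ht
  have h1 := mul_le_mul_of_nonneg_left (hvm x hx) hθ.1
  have h2 := mul_le_mul_of_nonneg_left (hφm y hy) (sub_nonneg.2 hθ.2)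
  nlinarith

theorem Rep.bdd (hvm : ∀ x ∈ P, v x ≤ m) (hφm : ∀ y ∈ B, φ y ≤ m) (z : V d) :
    BddAbove (Rep P B v φ z) := ⟨m, fun _ ht => Rep.le hvm hφm ht⟩

theorem Rep.self_mem {y₀ : V d} (hy₀ : y₀ ∈ B) {z : V d} (hz : z ∈ P) : v z ∈ Rep P B v φ z :=
  ⟨1, right_mem_Icc.2 zero_le_one, z, hz, y₀, hy₀, by simp, by simp⟩

theorem env_ge (hvm : ∀ x ∈ P, v x ≤ m) (hφm : ∀ y ∈ B, φ y ≤ m) {y₀ : V d} (hy₀ : y₀ ∈ B)
    {z : V d} (hz : z ∈ P) : v z ≤ env P B v φ z :=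
  le_csSup (Rep.bdd hvm hφm z) (Rep.self_mem hy₀ hz)

theorem env_ge' (hvm : ∀ x ∈ P, v x ≤ m) (hφm : ∀ y ∈ B, φ y ≤ m) {x₀ : V d} (hx₀ : x₀ ∈ P)
    {z : V d} (hz : z ∈ B) : φ z ≤ env P B v φ z :=
  le_csSup (Rep.bdd hvm hφm z)
    ⟨0, left_mem_Icc.2 zero_le_one, x₀, hx₀, z, hz, by simp, by simp⟩

theorem env_concave (hv : ConcaveOn ℝ P v) (hφ : ConcaveOn ℝ B φ) {y₀ : V d} (hy₀ : y₀ ∈ B)
    (hvm : ∀ x ∈ P, v x ≤ m) (hφm : ∀ y ∈ B, φ y ≤ m) :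
    ConcaveOn ℝ P (env P B v φ) := by
  refine ⟨hv.1, fun z₁ hz₁ z₂ hz₂ a b ha hb hab => ?_⟩
  simp only [smul_eq_mul]
  refine le_of_forall_pos_le_add fun ε hε => ?_
  obtain ⟨t₁, ht₁, h₁⟩ := exists_lt_of_lt_csSup ⟨_, Rep.self_mem hy₀ hz₁⟩
    (show env P B v φ z₁ - ε < sSup (Rep P B v φ z₁) by unfold env; linarith)
  obtain ⟨t₂, ht₂, h₂⟩ := exists_lt_of_lt_csSup ⟨_, Rep.self_mem hy₀ hz₂⟩
    (show env P B v φ z₂ - ε < sSup (Rep P B v φ z₂) by unfold env; linarith)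
  obtain ⟨θ₁, hθ₁, x₁, hx₁, y₁, hy₁, e₁, rfl⟩ := ht₁
  obtain ⟨θ₂, hθ₂, x₂, hx₂, y₂, hy₂, e₂, rfl⟩ := ht₂
  obtain ⟨x, hx, ex, hxle⟩ := combine hv hx₁ hx₂ (mul_nonneg ha hθ₁.1) (mul_nonneg hb hθ₂.1)
  obtain ⟨y, hy, ey, hyle⟩ := combine hφ hy₁ hy₂ (mul_nonneg ha (sub_nonneg.2 hθ₁.2))
    (mul_nonneg hb (sub_nonneg.2 hθ₂.2))
  have e3 : a * (1 - θ₁) + b * (1 - θ₂) = 1 - (a * θ₁ + b * θ₂) := by linear_combination hab
  rw [e3] at ey hyle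
  have hmem : (a * θ₁ + b * θ₂) * v x + (1 - (a * θ₁ + b * θ₂)) * φ y ∈
      Rep P B v φ (a • z₁ + b • z₂) := by
    refine ⟨a * θ₁ + b * θ₂, ⟨?_, ?_⟩, x, hx, y, hy, ?_, rfl⟩
    · exact add_nonneg (mul_nonneg ha hθ₁.1) (mul_nonneg hb hθ₂.1)
    · have h3 := mul_le_mul_of_nonneg_left hθ₁.2 ha
      have h4 := mul_le_mul_of_nonneg_left hθ₂.2 hb
      linarith
    · rw [← ex, ← ey, ← e₁, ← e₂]
      module
  have h5 := le_csSup (Rep.bdd hvm hφm _) hmem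
  have h6 := mul_le_mul_of_nonneg_left h₁.le ha
  have h7 := mul_le_mul_of_nonneg_left h₂.le hb
  change _ ≤ sSup _ + ε
  nlinarith

end

/-- half sums of points of `closure P` and of `B` form a compact subset of `P` -/
theorem half_compact {P B : Set (V d)} (hP : IsOpen P) (hb : Bornology.IsBounded P)
    (hc : Convex ℝ P) (hB : IsCompact B) (hBP : B ⊆ P) :
    ∃ K : Set (V d), K ⊆ P ∧ IsCompact K ∧ ∀ θ ∈ Icc (0:ℝ) (1 / 2), ∀ x ∈ P, ∀ y ∈ B,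
      θ • x + (1 - θ) • y ∈ K := by
  refine ⟨(fun z : ℝ × V d × V d => z.1 • z.2.1 + (1 - z.1) • z.2.2) ''
    (Icc (0:ℝ) (1 / 2) ×ˢ (closure P ×ˢ B)), ?_, ?_, ?_⟩
  · rintro _ ⟨⟨θ, x, y⟩, ⟨hθ, hx, hy⟩, rfl⟩
    have h1 : y ∈ interior P := by rw [hP.interior_eq]; exact hBP hy
    have h2 := hc.combo_closure_interior_mem_interior hx h1 hθ.1
      (by simp only at hθ; have := hθ.2; linarith : (0:ℝ) < 1 - θ) (by ring)
    rw [hP.interior_eq] at h2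
    exact h2
  · refine (isCompact_Icc.prod (hb.isCompact_closure.prod hB)).image ?_
    fun_prop
  · intro θ hθ x hx y hy
    exact ⟨(θ, x, y), ⟨hθ, subset_closure hx, hy⟩, rfl⟩

theorem bounds {P : Set (V d)} {v : V d → ℝ} (hvc : ContinuousOn v P) (hco : Coer P v) :
    ∃ m : ℝ, 0 ≤ m ∧ ∀ x ∈ P, v x ≤ m := by
  obtain ⟨K, hKP, hK, hKM⟩ := hco 0
  obtain ⟨m, hm⟩ := (hK.image_of_continuousOn (hvc.mono hKP)).bddAbove
  refine ⟨max m 0, le_max_right _ _, fun x hx => ?_⟩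
  by_cases h : 0 ≤ v x
  · exact (hm ⟨x, hKM x hx (by linarith), rfl⟩).trans (le_max_left _ _)
  · push Not at h
    exact h.le.trans (le_max_right _ _)

theorem lower_bound {P K : Set (V d)} {v : V d → ℝ} (hvc : ContinuousOn v P) (hK : IsCompact K)
    (hKP : K ⊆ P) : ∃ m : ℝ, 0 ≤ m ∧ ∀ x ∈ K, -m ≤ v x := by
  obtain ⟨m, hm⟩ := (hK.image_of_continuousOn (hvc.mono hKP)).bddBelow
  refine ⟨max (-m) 0, le_max_right _ _, fun x hx => ?_⟩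
  have h1 : m ≤ v x := hm ⟨x, hx, rfl⟩
  have h2 := le_max_left (-m) 0
  linarith

theorem superlevel_compact {P : Set (V d)} {v : V d → ℝ} (hvc : ContinuousOn v P)
    (hco : Coer P v) (M : ℝ) : IsCompact {x | x ∈ P ∧ -M ≤ v x} := by
  obtain ⟨K, hKP, hK, hKM⟩ := hco M
  have e : {x | x ∈ P ∧ -M ≤ v x} = K ∩ v ⁻¹' Ici (-M) := by
    ext x
    constructor
    · rintro ⟨h1, h2⟩
      exact ⟨hKM x h1 h2, h2⟩
    · rintro ⟨h1, h2⟩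
      exact ⟨hKP h1, h2⟩
  rw [e]
  obtain ⟨u, hu, hu2⟩ := (continuousOn_iff_isClosed.1 (hvc.mono hKP)) (Ici (-M)) isClosed_Ici
  rw [inter_comm, hu2, inter_comm]
  exact hK.inter_right hu

theorem env_coer {P B : Set (V d)} {v φ : V d → ℝ} (hP : IsOpen P) (hb : Bornology.IsBounded P)
    (hv : ConcaveOn ℝ P v) (hvc : ContinuousOn v P) (hco : Coer P v) (hB : IsCompact B)
    (hBP : B ⊆ P) {y₀ : V d} (hy₀ : y₀ ∈ B) {m : ℝ} (hm0 : 0 ≤ m)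
    (hφm : ∀ y ∈ B, φ y ≤ m) : Coer P (env P B v φ) := by
  intro M
  obtain ⟨K₁, hK₁P, hK₁, hK₁h⟩ := half_compact hP hb hv.1 hB hBP
  have hK₂ := superlevel_compact hvc hco (2 * (|M| + 1 + m))
  set K₂ := {x | x ∈ P ∧ -(2 * (|M| + 1 + m)) ≤ v x} with hK₂d
  refine ⟨K₁ ∪ (fun z : ℝ × V d × V d => z.1 • z.2.1 + (1 - z.1) • z.2.2) ''
    (Icc (0:ℝ) 1 ×ˢ (K₂ ×ˢ B)), ?_, ?_, ?_⟩
  · rintro z (hz | ⟨⟨θ, x, y⟩, ⟨hθ, hx, hy⟩, rfl⟩)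
    · exact hK₁P hz
    · exact hv.1 hx.1 (hBP hy) hθ.1 (sub_nonneg.2 hθ.2) (by ring)
  · refine hK₁.union ((isCompact_Icc.prod (hK₂.prod hB)).image ?_)
    fun_prop
  · intro z hz hM
    obtain ⟨t, ht, hlt⟩ := exists_lt_of_lt_csSup ⟨_, Rep.self_mem hy₀ hz⟩
      (show env P B v φ z - 1 < sSup (Rep P B v φ z) by unfold env; linarith)
    obtain ⟨θ, hθ, x, hx, y, hy, e, rfl⟩ := ht
    by_cases hθ2 : θ ≤ 1 / 2
    · left
      rw [← e]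
      exact hK₁h θ ⟨hθ.1, hθ2⟩ x hx y hy
    · right
      push Not at hθ2
      refine ⟨(θ, x, y), ⟨hθ, ⟨hx, ?_⟩, hy⟩, e⟩
      by_contra hcon
      push Not at hcon
      have h1 := hφm y hy
      have h2 := mul_le_mul_of_nonneg_left h1 (sub_nonneg.2 hθ.2)
      have h3 : -|M| ≤ -M := neg_le_neg (le_abs_self M)
      have h4 : θ * v x ≤ 1 / 2 * v x := by
        have : v x ≤ 0 := by
          have := abs_nonneg M
          linarith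
        nlinarith
      have h5 : (1 - θ) * m ≤ m := by nlinarith [hθ.1]
      have h6 : -|M| - 1 < θ * v x + (1 - θ) * φ y := by linarith
      linarith

/-- representations with `v x` very negative can be improved -/
theorem improve {P B : Set (V d)} {v φ : V d → ℝ} (hv : ConcaveOn ℝ P v) (hBP : B ⊆ P)
    {m M₁ M N : ℝ} (hm0 : 0 ≤ m) (hφm : ∀ y ∈ B, φ y ≤ m)
    (hM₁ : ∀ x ∈ P, ∀ y ∈ B, -M₁ ≤ v ((1 / 2 : ℝ) • x + (1 / 2 : ℝ) • y))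
    (hMa : 2 * (N + m) ≤ M) (hMb : 2 * M₁ + m ≤ M) (hMc : M₁ ≤ M) (hM0 : 0 ≤ M)
    {θ : ℝ} (hθ : θ ∈ Icc (0:ℝ) 1) {x y : V d} (hx : x ∈ P) (hy : y ∈ B)
    (hval : -N ≤ θ * v x + (1 - θ) * φ y) :
    ∃ θ' ∈ Icc (0:ℝ) 1, ∃ x' ∈ P, θ' • x' + (1 - θ') • y = θ • x + (1 - θ) • y ∧ -M ≤ v x' ∧
      θ * v x + (1 - θ) * φ y ≤ θ' * v x' + (1 - θ') * φ y := by
  by_cases hvx : -M ≤ v x
  · exact ⟨θ, hθ, x, hx, rfl, hvx, le_rfl⟩
  push Not at hvx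
  have h2 := mul_le_mul_of_nonneg_left (hφm y hy) (sub_nonneg.2 hθ.2)
  by_cases hθ2 : θ ≤ 1 / 2
  · refine ⟨2 * θ, ⟨by linarith [hθ.1], by linarith⟩, (1 / 2 : ℝ) • x + (1 / 2 : ℝ) • y,
      hv.1 hx (hBP hy) (by norm_num) (by norm_num) (by norm_num), by module,
      by linarith [hM₁ x hx y hy], ?_⟩
    have h3 := hM₁ x hx y hy
    have h4 := hφm y hy
    nlinarith [hθ.1]
  · exfalso
    push Not at hθ2
    have h5 : (1 - θ) * m ≤ m := by nlinarith [hθ.1]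
    have h4 : θ * v x ≤ 1 / 2 * v x := by nlinarith
    linarith

end Pool.Agent.TH585.J152
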