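import Pool.Agent.TH585.J152B

/-!
# First and second order conditions at an interior maximum
-/

open MeasureTheory Set Metric Filter Topology
open scoped InnerProductSpace

namespace Pool.Agent.TH585.J152

open Pool.Agent.TH281.PC

variable {d : ℕ}

theorem opt_cond {G : V d → ℝ} {q : V d → V d} {Q : V d →L[ℝ] V d}
    (hG : ∀ x, HasGradientAt G (q x) x) {x y z₀ x₀ ξ p₀ : V d} (hQ : HasFDerivAt q Q x)
    {S H₁ : V d →L[ℝ] V d} (hS : ∀ a b, ⟪S a, b⟫_ℝ = ⟪a, S b⟫_ℝ)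
    (hH : ∀ a b, ⟪H₁ a, b⟫_ℝ = ⟪a, H₁ b⟫_ℝ) {c₁ c₂ θ : ℝ} (hθ : θ ∈ Icc (0:ℝ) 1)
    (hmax : ∀ e₁ e₂ : V d, ∀ᶠ t : ℝ in 𝓝 0,
      θ * G (x + t • e₁) + (1 - θ) * quad c₁ p₀ x₀ S (y + t • e₂) -
        quad c₂ ξ z₀ H₁ (θ • (x + t • e₁) + (1 - θ) • (y + t • e₂)) ≤
      θ * G x + (1 - θ) * quad c₁ p₀ x₀ S y - quad c₂ ξ z₀ H₁ (θ • x + (1 - θ) • y)) :
    (θ = 0 ∨ q x = ξ + H₁ (θ • x + (1 - θ) • y - z₀)) ∧
    (1 - θ = 0 ∨ p₀ + S (y - x₀) = ξ + H₁ (θ • x + (1 - θ) • y - z₀)) ∧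
    ∀ e, ⟪(θ • Q + (1 - θ) • S) e, e⟫_ℝ ≤ ⟪H₁ e, e⟫_ℝ := by
  set z := θ • x + (1 - θ) • y with hz
  set ξs := ξ + H₁ (z - z₀) with hξs
  set pφ := p₀ + S (y - x₀) with hpφ
  have key : ∀ (e₁ e₂ : V d) (γ : ℝ), 0 < γ →
      θ * ⟪q x, e₁⟫_ℝ + (1 - θ) * ⟪pφ, e₂⟫_ℝ - ⟪ξs, θ • e₁ + (1 - θ) • e₂⟫_ℝ = 0 ∧
      (1 / 2) * (θ * ⟪Q e₁, e₁⟫_ℝ) + (1 / 2) * ((1 - θ) * ⟪S e₂, e₂⟫_ℝ) -
        (1 / 2) * ⟪H₁ (θ • e₁ + (1 - θ) • e₂), θ • e₁ + (1 - θ) • e₂⟫_ℝ -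
        θ * (γ * ‖e₁‖ ^ 2) ≤ 0 := by
    intro e₁ e₂ γ hγ
    apply quad_le
    have h1 := taylor_two isOpen_univ (fun x _ => hG x) (mem_univ x) hQ hγ
    have hc : Tendsto (fun t : ℝ => x + t • e₁) (𝓝 0) (𝓝 x) := by
      have : Continuous (fun t : ℝ => x + t • e₁) := by fun_prop
      simpa using this.tendsto 0
    filter_upwards [hmax e₁ e₂, hc.eventually h1] with t ht1 ht2
    rw [add_sub_cancel_left] at ht2
    have h3 := (abs_le.1 ht2).1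
    have ez : θ • (x + t • e₁) + (1 - θ) • (y + t • e₂) = z + t • (θ • e₁ + (1 - θ) • e₂) := by
      rw [hz]; module
    rw [ez, quad_add c₂ ξ z₀ hH z, quad_add c₁ p₀ x₀ hS y] at ht1
    rw [← hξs, ← hpφ] at ht1
    set w := θ • e₁ + (1 - θ) • e₂ with hw
    simp only [map_smul, real_inner_smul_left, real_inner_smul_right, norm_smul, mul_pow,
      Real.norm_eq_abs, sq_abs] at h3 ht1
    have h4 := mul_le_mul_of_nonneg_left h3 hθ.1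
    nlinarith
  refine ⟨?_, ?_, ?_⟩
  · by_cases h0 : θ = 0
    · exact Or.inl h0
    · right
      rw [← sub_eq_zero, ← inner_self_eq_zero (𝕜 := ℝ)]
      have h1 := (key (q x - ξs) 0 1 one_pos).1
      simp only [inner_zero_right, mul_zero, smul_zero, add_zero, real_inner_smul_right] at h1
      have h2 : θ * ⟪q x - ξs, q x - ξs⟫_ℝ = 0 := by
        rw [inner_sub_left]; linarith
      exact (mul_eq_zero.1 h2).resolve_left h0
  · by_cases h0 : 1 - θ = 0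
    · exact Or.inl h0
    · right
      rw [← sub_eq_zero, ← inner_self_eq_zero (𝕜 := ℝ)]
      have h1 := (key 0 (pφ - ξs) 1 one_pos).1
      simp only [inner_zero_right, mul_zero, smul_zero, zero_add, real_inner_smul_right] at h1
      have h2 : (1 - θ) * ⟪pφ - ξs, pφ - ξs⟫_ℝ = 0 := by
        rw [inner_sub_left]; linarith
      exact (mul_eq_zero.1 h2).resolve_left h0
  · intro e
    have h1 : ∀ γ : ℝ, 0 < γ → ⟪(θ • Q + (1 - θ) • S) e, e⟫_ℝ - ⟪H₁ e, e⟫_ℝ ≤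
        γ * (2 * θ * ‖e‖ ^ 2) := by
      intro γ hγ
      have h2 := (key e e γ hγ).2
      have e1 : θ • e + (1 - θ) • e = e := by module
      rw [e1] at h2
      simp only [add_apply, smul_apply, inner_add_left, real_inner_smul_left]
      linarith
    have h3 : 0 ≤ 2 * θ * ‖e‖ ^ 2 := by have := hθ.1; positivity
    by_contra hcon
    push Not at hcon
    rcases eq_or_lt_of_le h3 with h4 | h4
    · have := h1 1 one_pos
      rw [← h4] at this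
      linarith
    · have := h1 ((⟪(θ • Q + (1 - θ) • S) e, e⟫_ℝ - ⟪H₁ e, e⟫_ℝ) / (2 * (2 * θ * ‖e‖ ^ 2)))
        (by apply div_pos <;> linarith)
      have e2 : (⟪(θ • Q + (1 - θ) • S) e, e⟫_ℝ - ⟪H₁ e, e⟫_ℝ) / (2 * (2 * θ * ‖e‖ ^ 2)) *
          (2 * θ * ‖e‖ ^ 2) = (⟪(θ • Q + (1 - θ) • S) e, e⟫_ℝ - ⟪H₁ e, e⟫_ℝ) / 2 := by
        have aux : ∀ a b : ℝ, b ≠ 0 → a / (2 * b) * b = a / 2 := by
          intro a b hb
          field_simp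
        exact aux _ _ h4.ne'
      rw [e2] at this
      linarith

end Pool.Agent.TH585.J152
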